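import Pool.Agent.TH694.FV.Defs2

set_option autoImplicit false
set_option linter.unusedSectionVars false

namespace Pool.Agent.TH645.FV

open Pool.Agent.TH694.FV

theorem ends_E (i x y : ℕ) : ends (E i x y) = {x, y} := rfl

section

variable {V : Type} [Fintype V] [DecidableEq V]

/-- the labelled edge of an unordered pair -/
def lab (f : V → ℕ) (e : Sym2 V) : Ed := E 0 (e.map f).inf (e.map f).sup

theorem lab_mk (f : V → ℕ) (a b : V) : lab f s(a, b) = E 0 (min (f a) (f b)) (max (f a) (f b)) := by
  simp [lab]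

theorem ends_lab (f : V → ℕ) (a b : V) : ends (lab f s(a, b)) = {f a, f b} := by
  rw [lab_mk, ends_E]
  rcases le_total (f a) (f b) with h | h
  · rw [min_eq_left h, max_eq_right h]
  · rw [min_eq_right h, max_eq_left h, Finset.pair_comm]

theorem lab_inj (f : V → ℕ) (hf : Function.Injective f) : Function.Injective (lab f) := by
  intro e e' h
  induction e with | _ a b =>
  induction e' with | _ a' b' =>
  rw [lab_mk, lab_mk] at h
  simp only [E, Prod.mk.injEq, true_and, and_true] at h
  rw [Sym2.eq_iff]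
  rcases le_total (f a) (f b) with h1 | h1 <;> rcases le_total (f a') (f b') with h2 | h2
  · rw [min_eq_left h1, max_eq_right h1, min_eq_left h2, max_eq_right h2] at h
    exact Or.inl ⟨hf h.1, hf h.2⟩
  · rw [min_eq_left h1, max_eq_right h1, min_eq_right h2, max_eq_left h2] at h
    exact Or.inr ⟨hf h.1, hf h.2⟩
  · rw [min_eq_right h1, max_eq_left h1, min_eq_left h2, max_eq_right h2] at h
    exact Or.inr ⟨hf h.2, hf h.1⟩
  · rw [min_eq_right h1, max_eq_left h1, min_eq_right h2, max_eq_left h2] at h
    exact Or.inl ⟨hf h.2, hf h.1⟩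

theorem mem_lab (G : SimpleGraph V) (f : V → ℕ) (hf : Function.Injective f) (C : Finset Ed)
    (hC : ∀ e, e ∈ C ↔ ∃ a b, G.Adj a b ∧ f a < f b ∧ e = E 0 (f a) (f b)) (a b : V)
    (h : G.Adj a b) : lab f s(a, b) ∈ C := by
  rw [hC, lab_mk]
  rcases lt_or_ge (f a) (f b) with h1 | h1
  · exact ⟨a, b, h, h1, by rw [min_eq_left h1.le, max_eq_right h1.le]⟩
  · have h2 : f b < f a := lt_of_le_of_ne h1 fun h3 => h.ne (hf h3.symm)
    exact ⟨b, a, h.symm, h2, by rw [min_eq_right h1, max_eq_left h1]⟩

theorem acyc_of_forest (G : SimpleGraph V) (f : V → ℕ) (hf : Function.Injective f)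
    (C : Finset Ed)
    (hC : ∀ e, e ∈ C ↔ ∃ a b, G.Adj a b ∧ f a < f b ∧ e = E 0 (f a) (f b)) (h : Forest C) :
    G.IsAcyclic := by
  intro u c hc
  set Y : Finset Ed := c.edges.toFinset.image (lab f) with hY
  have h1 : Y ⊆ C := by
    intro e he
    obtain ⟨e', he', rfl⟩ := Finset.mem_image.mp he
    rw [List.mem_toFinset] at he'
    have h2 := c.edges_subset_edgeSet he'
    induction e' with | _ a b =>
    exact mem_lab G f hf C hC a b h2
  have h2 : Y.card = c.length := by
    rw [hY, Finset.card_image_of_injective _ (lab_inj f hf),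
      List.toFinset_card_of_nodup hc.edges_nodup, SimpleGraph.Walk.length_edges]
  have h3 : Y.Nonempty := by
    rw [← Finset.card_pos, h2]
    have := hc.three_le_length
    omega
  have h4 : vs Y ⊆ (c.support.toFinset).image f := by
    intro v hv
    rw [mem_vs] at hv
    obtain ⟨e, he, hv⟩ := hv
    obtain ⟨e', he', rfl⟩ := Finset.mem_image.mp he
    rw [List.mem_toFinset] at he'
    induction e' with | _ a b =>
    rw [ends_lab, Finset.mem_insert, Finset.mem_singleton] at hv
    rw [Finset.mem_image]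
    rcases hv with rfl | rfl
    · exact ⟨a, by rw [List.mem_toFinset]; exact c.fst_mem_support_of_mem_edges he', rfl⟩
    · exact ⟨b, by rw [List.mem_toFinset]; exact c.snd_mem_support_of_mem_edges he', rfl⟩
  have h5 : c.support.toFinset ⊆ c.support.tail.toFinset := by
    intro v hv
    rw [List.mem_toFinset] at hv ⊢
    rw [SimpleGraph.Walk.mem_support_iff] at hv
    rcases hv with rfl | hv
    · exact SimpleGraph.Walk.end_mem_tail_support hc.not_nil
    · exact hv
  have h6 : (vs Y).card ≤ c.length := by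
    calc (vs Y).card ≤ ((c.support.toFinset).image f).card := Finset.card_le_card h4
      _ ≤ (c.support.toFinset).card := Finset.card_image_le
      _ ≤ (c.support.tail.toFinset).card := Finset.card_le_card h5
      _ ≤ c.support.tail.length := List.toFinset_card_le _
      _ = c.length := by simp
  have h7 := h Y h1 h3
  omega

theorem forest_of_acyc (G : SimpleGraph V) (f : V → ℕ) (hf : Function.Injective f)
    (C : Finset Ed)
    (hC : ∀ e, e ∈ C ↔ ∃ a b, G.Adj a b ∧ f a < f b ∧ e = E 0 (f a) (f b))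
    (h : G.IsAcyclic) : Forest C := by
  classical
  intro Y hY hne
  set W : Set V := {a | f a ∈ vs Y} with hW
  obtain ⟨e0, he0⟩ := hne
  obtain ⟨a0, b0, hab0, _, he0'⟩ := (hC e0).mp (hY he0)
  have ha0 : a0 ∈ W := by
    simp only [hW, Set.mem_ofPred_eq, mem_vs]
    exact ⟨e0, he0, by rw [he0', ends_E]; simp⟩
  have : Nonempty W := ⟨⟨a0, ha0⟩⟩
  obtain ⟨T, hT1, hT2, hT3⟩ := SimpleGraph.Connected.exists_isTree_le_of_le_of_isAcyclic
    (SimpleGraph.connected_top (V := W)) (le_top : G.induce W ≤ ⊤) (h.induce W)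
  have hcard := hT3.card_edgeFinset
  -- the labels of the edges of the tree
  have h1 : Y ⊆ T.edgeFinset.image (lab (fun a : W => f a)) := by
    intro e he
    obtain ⟨a, b, hab, hlt, rfl⟩ := (hC e).mp (hY he)
    have ha : a ∈ W := by
      simp only [hW, Set.mem_ofPred_eq, mem_vs]
      exact ⟨_, he, by rw [ends_E]; simp⟩
    have hb : b ∈ W := by
      simp only [hW, Set.mem_ofPred_eq, mem_vs]
      exact ⟨_, he, by rw [ends_E]; simp⟩
    rw [Finset.mem_image]
    refine ⟨s(⟨a, ha⟩, ⟨b, hb⟩), ?_, ?_⟩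
    · rw [SimpleGraph.mem_edgeFinset, SimpleGraph.mem_edgeSet]
      exact hT1 hab
    · rw [lab_mk]
      simp only
      rw [min_eq_left hlt.le, max_eq_right hlt.le]
  have h2 : Y.card ≤ T.edgeFinset.card := (Finset.card_le_card h1).trans Finset.card_image_le
  have h3 : Fintype.card W = (vs Y).card := by
    have h4 : (Finset.univ : Finset W).image (fun a : W => f a) = vs Y := by
      ext v
      rw [Finset.mem_image]
      constructor
      · rintro ⟨a, _, rfl⟩
        exact a.2
      · intro hv
        obtain ⟨e, he, hv'⟩ := mem_vs.mp hv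
        obtain ⟨a, b, hab, hlt, rfl⟩ := (hC e).mp (hY he)
        rw [ends_E, Finset.mem_insert, Finset.mem_singleton] at hv'
        rcases hv' with rfl | rfl
        · exact ⟨⟨a, hv⟩, Finset.mem_univ _, rfl⟩
        · exact ⟨⟨b, hv⟩, Finset.mem_univ _, rfl⟩
    have h5 := congrArg Finset.card h4
    rw [Finset.card_image_of_injective _ (fun a b hab => Subtype.ext (hf hab)),
      Finset.card_univ] at h5
    exact h5
  omega

end

theorem mem_realE {n : ℕ} (G : SimpleGraph (Fin n)) (e : Ed) :
    e ∈ realE G ↔ ∃ a b : Fin n, a < b ∧ G.Adj a b ∧ e = E 0 a b := by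
  classical
  unfold realE
  rw [Finset.mem_image]
  constructor
  · rintro ⟨⟨a, b⟩, h, rfl⟩
    rw [Finset.mem_filter] at h
    exact ⟨a, b, h.2.1, h.2.2, rfl⟩
  · rintro ⟨a, b, h1, h2, rfl⟩
    exact ⟨(a, b), by rw [Finset.mem_filter]; exact ⟨Finset.mem_univ _, h1, h2⟩, rfl⟩

/-- the real edges which avoid `X` -/
noncomputable def CX {n : ℕ} (G : SimpleGraph (Fin n)) (X : Finset (Fin n)) : Finset Ed :=
  (realE G).filter fun e => px e ∉ X.image Fin.val ∧ py e ∉ X.image Fin.val

theorem mem_CX {n : ℕ} (G : SimpleGraph (Fin n)) (X : Finset (Fin n)) (e : Ed) :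
    e ∈ CX G X ↔ ∃ a b : ↥{v : Fin n | v ∉ X}, (G.induce {v : Fin n | v ∉ X}).Adj a b ∧
      (a : Fin n).val < (b : Fin n).val ∧ e = E 0 (a : Fin n).val (b : Fin n).val := by
  have hX : ∀ a : Fin n, a.val ∈ X.image Fin.val ↔ a ∈ X := by
    intro a
    rw [Finset.mem_image]
    constructor
    · rintro ⟨b, hb, h⟩
      rwa [← Fin.ext h]
    · intro h
      exact ⟨a, h, rfl⟩
  unfold CX
  rw [Finset.mem_filter, mem_realE]
  constructor
  · rintro ⟨⟨a, b, h1, h2, rfl⟩, h3, h4⟩
    refine ⟨⟨a, fun h => h3 ((hX a).mpr h)⟩, ⟨b, fun h => h4 ((hX b).mpr h)⟩, h2, h1, rfl⟩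
  · rintro ⟨a, b, h1, h2, rfl⟩
    exact ⟨⟨a, b, h2, h1, rfl⟩, fun h => a.2 ((hX a).mp h), fun h => b.2 ((hX b).mp h)⟩

theorem acyc_iff {n : ℕ} (G : SimpleGraph (Fin n)) (X : Finset (Fin n)) :
    (G.induce {v : Fin n | v ∉ X}).IsAcyclic ↔ Forest (CX G X) := by
  classical
  have hf : Function.Injective (fun a : ↥{v : Fin n | v ∉ X} => (a : Fin n).val) :=
    fun a b h => Subtype.ext (Fin.ext h)
  constructor
  · intro h
    exact forest_of_acyc (G.induce {v : Fin n | v ∉ X}) _ hf _ (mem_CX G X) h
  · intro h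
    exact acyc_of_forest (G.induce {v : Fin n | v ∉ X}) _ hf _ (mem_CX G X) h

theorem tau_real_le {n : ℕ} (G : SimpleGraph (Fin n)) (X : Finset (Fin n))
    (h : (G.induce {v : Fin n | v ∉ X}).IsAcyclic) : tau (realE G) ∅ ≤ X.card := by
  have hcfg : Cfg (realE G) ∅ (X.image Fin.val) (CX G X) :=
    ⟨Finset.empty_subset _, Finset.filter_subset _ _, fun e he => (Finset.mem_filter.mp he).2,
      (acyc_iff G X).mp h⟩
  refine (tau_le hcfg).trans ?_
  unfold cost
  have h1 : ∑ e ∈ realE G, ecost (X.image Fin.val) (CX G X) e = 0 := by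
    apply Finset.sum_eq_zero
    intro e he
    obtain ⟨a, b, _, _, rfl⟩ := (mem_realE G e).mp he
    unfold ecost
    by_cases h2 : px (E 0 (a : ℕ) (b : ℕ)) ∈ X.image Fin.val
    · rw [if_pos h2]
      split_ifs <;> rfl
    · rw [if_neg h2]
      by_cases h3 : py (E 0 (a : ℕ) (b : ℕ)) ∈ X.image Fin.val
      · rw [if_pos h3]
      · rw [if_neg h3, if_pos]
        exact Finset.mem_filter.mpr ⟨he, h2, h3⟩
  rw [h1, add_zero, Finset.sdiff_empty]
  exact Finset.card_image_le

/-- The minimum size of a feedback vertex set. -/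
theorem tau_real {n : ℕ} (G : SimpleGraph (Fin n)) :
    IsLeast {k | ∃ X : Finset (Fin n), X.card = k ∧ (G.induce {v | v ∉ X}).IsAcyclic}
      (tau (realE G) ∅) := by
  classical
  constructor
  · obtain ⟨X, C, hcfg, hcost⟩ := exists_tau (realE G) ∅
    set Bd : Finset Ed := (realE G).filter (fun e => px e ∉ X ∧ py e ∉ X ∧ e ∉ C) with hBd
    set X2 : Finset ℕ := X ∪ Bd.image (fun e => px e) with hX2
    set Y : Finset (Fin n) := Finset.univ.filter (fun v : Fin n => v.val ∈ X2) with hY
    have h1 : Y.card ≤ X2.card := by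
      have h2 : Y.image Fin.val ⊆ X2 := by
        intro v hv
        obtain ⟨a, ha, rfl⟩ := Finset.mem_image.mp hv
        exact (Finset.mem_filter.mp ha).2
      rw [← Finset.card_image_of_injective Y Fin.val_injective]
      exact Finset.card_le_card h2
    have h2 : X2.card ≤ X.card + Bd.card :=
      (Finset.card_union_le _ _).trans (Nat.add_le_add_left Finset.card_image_le _)
    have h3 : Bd.card ≤ ∑ e ∈ realE G, ecost X C e := by
      rw [Finset.card_eq_sum_ones, hBd, Finset.sum_filter]
      apply Finset.sum_le_sum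
      intro e he
      obtain ⟨a, b, _, _, rfl⟩ := (mem_realE G e).mp he
      split_ifs with h
      · unfold ecost
        rw [if_neg h.1, if_neg h.2.1, if_neg h.2.2]
      · exact Nat.zero_le _
    have h4 : Y.card ≤ tau (realE G) ∅ := by
      rw [← hcost]
      unfold cost
      rw [Finset.sdiff_empty]
      omega
    have h5 : (G.induce {v : Fin n | v ∉ Y}).IsAcyclic := by
      rw [acyc_iff]
      apply hcfg.forest.mono
      intro e he
      obtain ⟨he1, he2, he3⟩ := Finset.mem_filter.mp he
      obtain ⟨a, b, _, _, rfl⟩ := (mem_realE G e).mp he1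
      have hm : ∀ c : Fin n, c.val ∉ Y.image Fin.val → c.val ∉ X2 := by
        intro c hc hc2
        exact hc (Finset.mem_image.mpr ⟨c, Finset.mem_filter.mpr ⟨Finset.mem_univ _, hc2⟩, rfl⟩)
      have ha := hm a he2
      have hb := hm b he3
      by_contra hC
      apply ha
      rw [hX2, Finset.mem_union]
      right
      rw [Finset.mem_image]
      refine ⟨E 0 a b, Finset.mem_filter.mpr ⟨he1, ?_, ?_, hC⟩, rfl⟩
      · intro h
        exact ha (Finset.mem_union_left _ h)
      · intro h
        exact hb (Finset.mem_union_left _ h)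
    refine ⟨Y, le_antisymm h4 (tau_real_le G Y h5), h5⟩
  · rintro k ⟨X, rfl, h⟩
    exact tau_real_le G X h

/-- Vertex-disjoint edges. -/
theorem tau_disjoint (H : Finset Ed) (hv : ∀ e ∈ H, Valid e)
    (hd : ∀ e ∈ H, ∀ f ∈ H, e ≠ f → Disjoint (ends e) (ends f)) :
    tau H ∅ = ∑ e ∈ H, cc e := by
  have hcard : ∀ Y ⊆ H, (vs Y).card = 2 * Y.card := by
    intro Y hY
    unfold vs
    rw [Finset.card_biUnion (fun e he f hf hne => hd e (hY he) f (hY hf) hne), mul_comm,
      ← smul_eq_mul, ← Finset.sum_const]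
    apply Finset.sum_congr rfl
    intro e he
    unfold ends
    exact Finset.card_pair (hv e (hY he)).1
  apply le_antisymm
  · have hcfg : Cfg H ∅ ∅ H := by
      refine ⟨le_rfl, le_rfl, fun e _ => ⟨Finset.notMem_empty _, Finset.notMem_empty _⟩, ?_⟩
      intro Y hY hne
      rw [hcard Y hY]
      have := Finset.card_pos.mpr hne
      omega
    refine (tau_le hcfg).trans (le_of_eq ?_)
    unfold cost
    rw [Finset.sdiff_empty, Finset.card_empty, zero_add]
    apply Finset.sum_congr rfl
    intro e he
    unfold ecost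
    rw [if_neg (Finset.notMem_empty _), if_neg (Finset.notMem_empty _), if_pos he]
  · obtain ⟨X, C, hcfg, hcost⟩ := exists_tau H ∅
    rw [← hcost]
    unfold cost
    rw [Finset.sdiff_empty]
    have h1 : ∑ e ∈ H, (X ∩ ends e).card ≤ X.card := by
      rw [← Finset.card_biUnion]
      · apply Finset.card_le_card
        intro v hv
        obtain ⟨e, _, he⟩ := Finset.mem_biUnion.mp hv
        exact (Finset.mem_inter.mp he).1
      · intro e he f hf hne
        exact (hd e he f hf hne).mono Finset.inter_subset_right Finset.inter_subset_right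
    have h2 : ∑ e ∈ H, cc e ≤ ∑ e ∈ H, ((X ∩ ends e).card + ecost X C e) := by
      apply Finset.sum_le_sum
      intro e he
      obtain ⟨v1, v2, v3, v4, v5, v6, v7, v8⟩ := hv e he
      unfold ecost
      by_cases hx : px e ∈ X
      · by_cases hy : py e ∈ X
        · have h3 : (X ∩ ends e).card = 2 := by
            have h4 : X ∩ ends e = ends e := by
              rw [Finset.inter_eq_right]
              intro v hv'
              rw [mem_ends] at hv'
              rcases hv' with rfl | rfl
              · exact hx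
              · exact hy
            rw [h4]
            unfold ends
            exact Finset.card_pair v1
          rw [if_pos hx, if_pos hy, h3]
          omega
        · have h3 : 0 < (X ∩ ends e).card :=
            Finset.card_pos.mpr ⟨px e, Finset.mem_inter.mpr ⟨hx, mem_ends.mpr (Or.inl rfl)⟩⟩
          rw [if_pos hx, if_neg hy]
          omega
      · by_cases hy : py e ∈ X
        · have h3 : 0 < (X ∩ ends e).card :=
            Finset.card_pos.mpr ⟨py e, Finset.mem_inter.mpr ⟨hy, mem_ends.mpr (Or.inr rfl)⟩⟩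
          rw [if_neg hx, if_pos hy]
          omega
        · rw [if_neg hx, if_neg hy]
          split_ifs <;> omega
    rw [Finset.sum_add_distrib] at h2
    omega

end Pool.Agent.TH645.FV
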