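import Pool.Agent.TH694.FV.Defs2

set_option autoImplicit false

namespace Pool.Agent.TH645.FV

open Pool.Agent.TH694.FV

/-- states: `none` is deleted, `some (ℓ, p)` is kept at level `ℓ` with parent edge `p` -/
abbrev St : Type := Option (ℕ × Option Ed)

instance : DecidableEq (Option Ed) := inferInstance
instance : DecidableEq St := inferInstance

/-- a large number -/
def big (F : Finset Ed) : ℕ := 2 * F.card + 1

/-- cost of an edge -/
def gcost (F : Finset Ed) (e : Ed) (s t : St) : ℕ :=
  match s, t with
  | none, none => 0
  | none, some _ => ca e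
  | some _, none => cb e
  | some (i, p), some (j, q) =>
      if (p = some e ∧ q ≠ some e ∧ j < i) ∨ (q = some e ∧ p ≠ some e ∧ i < j) then cc e
      else if p ≠ some e ∧ q ≠ some e then cd e else big F

/-- cost of a vertex -/
def wcost (F : Finset Ed) (D : Finset ℕ) (v : ℕ) (s : St) : ℕ :=
  if v ∈ D then (if s = none then 0 else big F) else (if s = none then 1 else 0)

/-- the admissible states -/
def Adm (F : Finset Ed) (s : St) : Prop :=
  s = none ∨ ∃ ℓ p, s = some (ℓ, p) ∧ ℓ ≤ F.card ∧ (p = none ∨ ∃ e ∈ F, p = some e)

theorem card_ends_le (e : Ed) : (ends e).card ≤ 2 := Finset.card_le_two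

theorem card_vs_le (F : Finset Ed) : (vs F).card ≤ 2 * F.card := by
  unfold vs
  rw [mul_comm]
  exact Finset.card_biUnion_le_card_mul _ _ _ fun e _ => card_ends_le e

/-- pointer -/
def ptr (s : St) : Option Ed := match s with
  | none => none
  | some (_, p) => p

/-- level -/
def lvl (s : St) : ℕ := match s with
  | none => 0
  | some (i, _) => i

/-- the edge `e` is connected -/
def Jn (e : Ed) (s t : St) : Prop :=
  (ptr s = some e ∧ ptr t ≠ some e ∧ lvl t < lvl s) ∨
    (ptr t = some e ∧ ptr s ≠ some e ∧ lvl s < lvl t)

instance (e : Ed) (s t : St) : Decidable (Jn e s t) := by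
  unfold Jn
  infer_instance

theorem gcost_kept (F : Finset Ed) (e : Ed) (s t : St) (hs : s ≠ none) (ht : t ≠ none) :
    gcost F e s t = if Jn e s t then cc e
      else if ptr s ≠ some e ∧ ptr t ≠ some e then cd e else big F := by
  rcases s with _ | ⟨i, p⟩
  · exact absurd rfl hs
  rcases t with _ | ⟨j, q⟩
  · exact absurd rfl ht
  rfl

theorem gcost_nn (F : Finset Ed) (e : Ed) : gcost F e none none = 0 := rfl

theorem gcost_ns (F : Finset Ed) (e : Ed) (t : St) (ht : t ≠ none) :
    gcost F e none t = ca e := by
  rcases t with _ | ⟨j, q⟩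
  · exact absurd rfl ht
  rfl

theorem gcost_sn (F : Finset Ed) (e : Ed) (s : St) (hs : s ≠ none) :
    gcost F e s none = cb e := by
  rcases s with _ | ⟨j, q⟩
  · exact absurd rfl hs
  rfl

/-- a system of pointers gives a forest -/
theorem forest_ptr (σ : ℕ → St) (C : Finset Ed) (hC : ∀ e ∈ C, Jn e (σ (px e)) (σ (py e))) :
    Forest C := by
  intro Y hY hne
  set ch : Ed → ℕ := fun e => if ptr (σ (px e)) = some e then px e else py e with hch
  have h1 : ∀ e ∈ Y, ptr (σ (ch e)) = some e := by
    intro e he
    simp only [hch]
    split_ifs with h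
    · exact h
    · rcases hC e (hY he) with h2 | h2
      · exact absurd h2.1 h
      · exact h2.1
  have h2 : ∀ e ∈ Y, ch e ∈ vs Y := by
    intro e he
    rw [mem_vs]
    refine ⟨e, he, ?_⟩
    rw [mem_ends]
    simp only [hch]
    split_ifs
    · exact Or.inl rfl
    · exact Or.inr rfl
  have h3 : ∀ e ∈ Y, ∃ w ∈ vs Y, lvl (σ w) < lvl (σ (ch e)) := by
    intro e he
    simp only [hch]
    split_ifs with h
    · refine ⟨py e, mem_vs.mpr ⟨e, he, mem_ends.mpr (Or.inr rfl)⟩, ?_⟩
      rcases hC e (hY he) with h2 | h2
      · exact h2.2.2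
      · exact absurd h h2.2.1
    · refine ⟨px e, mem_vs.mpr ⟨e, he, mem_ends.mpr (Or.inl rfl)⟩, ?_⟩
      rcases hC e (hY he) with h2 | h2
      · exact absurd h2.1 h
      · exact h2.2.2
  have h4 : (vs Y).Nonempty := by
    obtain ⟨e, he⟩ := hne
    exact ⟨ch e, h2 e he⟩
  obtain ⟨v0, hv0, hmin⟩ := (vs Y).exists_min_image (fun v => lvl (σ v)) h4
  have h5 : (Y.image ch).card = Y.card := by
    apply Finset.card_image_of_injOn
    intro e he e' he' h
    have h6 := h1 e he
    rw [h, h1 e' he'] at h6
    exact (Option.some_injective _ h6).symm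
  have h6 : Y.image ch ⊆ (vs Y).erase v0 := by
    intro v hv
    obtain ⟨e, he, rfl⟩ := Finset.mem_image.mp hv
    rw [Finset.mem_erase]
    refine ⟨?_, h2 e he⟩
    intro h7
    obtain ⟨w, hw, hlt⟩ := h3 e he
    have := hmin w hw
    rw [h7] at hlt
    omega
  have h7 := Finset.card_le_card h6
  rw [h5, Finset.card_erase_of_mem hv0] at h7
  have := Finset.card_pos.mpr h4
  omega

theorem Forest.ne {C : Finset Ed} (h : Forest C) {e : Ed} (he : e ∈ C) : px e ≠ py e := by
  intro h2
  have h3 := h {e} (by simpa using he) (by simp)
  have h4 : vs {e} = {py e} := by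
    unfold vs ends
    rw [Finset.singleton_biUnion, h2, Finset.pair_eq_singleton]
  rw [h4] at h3
  simp at h3

/-- a forest has a vertex of degree one -/
theorem exists_leaf {C : Finset Ed} (h : Forest C) (hne : C.Nonempty) :
    ∃ e ∈ C, ∃ v ∈ ends e, ∀ f ∈ C, v ∈ ends f → f = e := by
  have h1 : ∑ v ∈ vs C, (C.filter (fun e => v ∈ ends e)).card = 2 * C.card := by
    have h2 : ∀ v, (C.filter (fun e => v ∈ ends e)).card = ∑ e ∈ C, if v ∈ ends e then 1 else 0 := by
      intro v
      rw [Finset.card_filter]
    simp only [h2]
    rw [Finset.sum_comm, mul_comm, ← smul_eq_mul, ← Finset.sum_const]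
    apply Finset.sum_congr rfl
    intro e he
    rw [← Finset.card_filter]
    have h3 : (vs C).filter (fun v => v ∈ ends e) = ends e := by
      ext v
      rw [Finset.mem_filter, mem_vs]
      constructor
      · exact fun hv => hv.2
      · exact fun hv => ⟨⟨e, he, hv⟩, hv⟩
    rw [h3]
    unfold ends
    exact Finset.card_pair (Forest.ne h he)
  have h4 := h C le_rfl hne
  obtain ⟨v, hv, hv2⟩ : ∃ v ∈ vs C, (C.filter (fun e => v ∈ ends e)).card < 2 := by
    by_contra hcon
    push Not at hcon
    have h5 : ∑ v ∈ vs C, 2 ≤ ∑ v ∈ vs C, (C.filter (fun e => v ∈ ends e)).card :=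
      Finset.sum_le_sum hcon
    rw [Finset.sum_const, smul_eq_mul] at h5
    omega
  obtain ⟨e, he, hve⟩ := mem_vs.mp hv
  refine ⟨e, he, v, hve, ?_⟩
  intro f hf hvf
  have h5 : (C.filter (fun e => v ∈ ends e)).card ≤ 1 := by omega
  rw [Finset.card_le_one] at h5
  exact h5 f (Finset.mem_filter.mpr ⟨hf, hvf⟩) e (Finset.mem_filter.mpr ⟨he, hve⟩)

/-- levels and pointers of a forest -/
theorem exists_lev : ∀ (n : ℕ) (C : Finset Ed), C.card = n → Forest C →
    ∃ (lev : ℕ → ℕ) (par : ℕ → Option Ed), (∀ v, lev v ≤ C.card) ∧
      (∀ v, par v = none ∨ ∃ e ∈ C, par v = some e) ∧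
      ∀ e ∈ C, (par (px e) = some e ∧ par (py e) ≠ some e ∧ lev (py e) < lev (px e)) ∨
        (par (py e) = some e ∧ par (px e) ≠ some e ∧ lev (px e) < lev (py e)) := by
  intro n
  induction n with
  | zero =>
    intro C hC _
    rw [Finset.card_eq_zero] at hC
    subst hC
    exact ⟨fun _ => 0, fun _ => none, by simp, by simp, by simp⟩
  | succ n ih =>
    intro C hC hF
    have hne : C.Nonempty := by
      rw [← Finset.card_pos, hC]
      omega
    obtain ⟨e, he, v, hv, hu⟩ := exists_leaf hF hne
    have hC' : (C.erase e).card = n := by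
      rw [Finset.card_erase_of_mem he, hC]
      omega
    obtain ⟨lev, par, h1, h2, h3⟩ := ih (C.erase e) hC' (hF.mono (Finset.erase_subset _ _))
    have hxy := Forest.ne hF he
    refine ⟨Function.update lev v C.card, Function.update par v (some e), ?_, ?_, ?_⟩
    · intro w
      by_cases hw : w = v
      · subst hw
        rw [Function.update_self]
      · rw [Function.update_of_ne hw]
        exact (h1 w).trans (by omega)
    · intro w
      by_cases hw : w = v
      · subst hw
        rw [Function.update_self]
        exact Or.inr ⟨e, he, rfl⟩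
      · rw [Function.update_of_ne hw]
        rcases h2 w with h | ⟨f, hf, h⟩
        · exact Or.inl h
        · exact Or.inr ⟨f, Finset.mem_of_mem_erase hf, h⟩
    · intro f hf
      by_cases hfe : f = e
      · subst hfe
        have hne' : ∀ w, par w ≠ some f := by
          intro w hw
          rcases h2 w with h | ⟨g, hg, h⟩
          · rw [h] at hw
            exact absurd hw (by simp)
          · rw [h] at hw
            rw [Option.some_injective _ hw] at hg
            exact absurd rfl (Finset.mem_erase.mp hg).1
        rcases mem_ends.mp hv with h | h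
        · left
          subst h
          rw [Function.update_self, Function.update_of_ne hxy.symm, Function.update_self,
            Function.update_of_ne hxy.symm]
          refine ⟨rfl, hne' _, ?_⟩
          have := h1 (py f)
          omega
        · right
          subst h
          rw [Function.update_self, Function.update_of_ne hxy, Function.update_self,
            Function.update_of_ne hxy]
          refine ⟨rfl, hne' _, ?_⟩
          have := h1 (px f)
          omega
      · have hx : px f ≠ v := by
          intro h
          exact hfe (hu f hf (mem_ends.mpr (Or.inl h.symm)))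
        have hy : py f ≠ v := by
          intro h
          exact hfe (hu f hf (mem_ends.mpr (Or.inr h.symm)))
        rw [Function.update_of_ne hx, Function.update_of_ne hy, Function.update_of_ne hx,
          Function.update_of_ne hy]
        exact h3 f (Finset.mem_erase.mpr ⟨hfe, hf⟩)

/-- every choice of states costs at least `tau` -/
theorem tau_le_states (F : Finset Ed) (D : Finset ℕ) (σ : ℕ → St) :
    tau F D ≤ (∑ v ∈ vs F, wcost F D v (σ v)) +
      (∑ e ∈ F, gcost F e (σ (px e)) (σ (py e))) := by
  by_cases hbig : big F ≤ (∑ v ∈ vs F, wcost F D v (σ v)) +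
      (∑ e ∈ F, gcost F e (σ (px e)) (σ (py e)))
  · refine le_trans ?_ hbig
    have hcfg : Cfg F D (D ∪ vs F) ∅ :=
      ⟨Finset.subset_union_left, Finset.empty_subset _, by simp, forest_empty⟩
    refine (tau_le hcfg).trans ?_
    unfold cost big
    have h1 : ∑ e ∈ F, ecost (D ∪ vs F) ∅ e = 0 := by
      apply Finset.sum_eq_zero
      intro e he
      unfold ecost
      rw [if_pos, if_pos]
      · exact Finset.mem_union_right _ (mem_vs.mpr ⟨e, he, mem_ends.mpr (Or.inr rfl)⟩)
      · exact Finset.mem_union_right _ (mem_vs.mpr ⟨e, he, mem_ends.mpr (Or.inl rfl)⟩)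
    have h2 : ((D ∪ vs F) \ D).card ≤ (vs F).card := by
      apply Finset.card_le_card
      intro v hv
      rw [Finset.mem_sdiff, Finset.mem_union] at hv
      tauto
    have h3 := card_vs_le F
    omega
  · push Not at hbig
    have hw : ∀ v ∈ vs F, wcost F D v (σ v) < big F := by
      intro v hv
      have := Finset.single_le_sum (f := fun v => wcost F D v (σ v)) (fun _ _ => Nat.zero_le _) hv
      omega
    have hg : ∀ e ∈ F, gcost F e (σ (px e)) (σ (py e)) < big F := by
      intro e he
      have := Finset.single_le_sum (f := fun e => gcost F e (σ (px e)) (σ (py e)))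
        (fun _ _ => Nat.zero_le _) he
      omega
    have hD : ∀ v ∈ vs F, v ∈ D → σ v = none := by
      intro v hv hvD
      by_contra hne
      have := hw v hv
      unfold wcost at this
      rw [if_pos hvD, if_neg hne] at this
      omega
    set X : Finset ℕ := D ∪ (vs F).filter (fun v => σ v = none) with hX
    have hXm : ∀ v ∈ vs F, (v ∈ X ↔ σ v = none) := by
      intro v hv
      rw [hX, Finset.mem_union, Finset.mem_filter]
      constructor
      · rintro (h | h)
        · exact hD v hv h
        · exact h.2
      · exact fun h => Or.inr ⟨hv, h⟩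
    set C : Finset Ed := F.filter (fun e => px e ∉ X ∧ py e ∉ X ∧ Jn e (σ (px e)) (σ (py e)))
      with hC
    have hcfg : Cfg F D X C := by
      refine ⟨Finset.subset_union_left, Finset.filter_subset _ _, ?_, ?_⟩
      · intro e he
        have := (Finset.mem_filter.mp he).2
        exact ⟨this.1, this.2.1⟩
      · apply forest_ptr σ
        intro e he
        exact (Finset.mem_filter.mp he).2.2.2
    refine (tau_le hcfg).trans ?_
    unfold cost
    apply Nat.add_le_add
    · have h1 : X \ D ⊆ (vs F).filter (fun v => v ∉ D ∧ σ v = none) := by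
        intro v hv
        rw [Finset.mem_sdiff, hX, Finset.mem_union, Finset.mem_filter] at hv
        rw [Finset.mem_filter]
        tauto
      refine (Finset.card_le_card h1).trans ?_
      rw [Finset.card_filter]
      apply Finset.sum_le_sum
      intro v hv
      unfold wcost
      by_cases h2 : v ∈ D
      · simp [h2]
      · simp [h2]
    · apply Finset.sum_le_sum
      intro e he
      have hpx : px e ∈ vs F := mem_vs.mpr ⟨e, he, mem_ends.mpr (Or.inl rfl)⟩
      have hpy : py e ∈ vs F := mem_vs.mpr ⟨e, he, mem_ends.mpr (Or.inr rfl)⟩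
      unfold ecost
      by_cases h1 : px e ∈ X
      · have h1' := (hXm _ hpx).mp h1
        by_cases h2 : py e ∈ X
        · rw [if_pos h1, if_pos h2]
          exact Nat.zero_le _
        · have h2' : σ (py e) ≠ none := fun h => h2 ((hXm _ hpy).mpr h)
          rw [if_pos h1, if_neg h2, h1', gcost_ns F e _ h2']
      · have h1' : σ (px e) ≠ none := fun h => h1 ((hXm _ hpx).mpr h)
        by_cases h2 : py e ∈ X
        · have h2' := (hXm _ hpy).mp h2
          rw [if_neg h1, if_pos h2, h2', gcost_sn F e _ h1']
        · have h2' : σ (py e) ≠ none := fun h => h2 ((hXm _ hpy).mpr h)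
          rw [if_neg h1, if_neg h2, gcost_kept F e _ _ h1' h2']
          by_cases h3 : Jn e (σ (px e)) (σ (py e))
          · rw [if_pos h3, if_pos]
            exact Finset.mem_filter.mpr ⟨he, h1, h2, h3⟩
          · have h4 : e ∉ C := fun h => h3 (Finset.mem_filter.mp h).2.2.2
            rw [if_neg h3, if_neg h4]
            have h5 := hg e he
            rw [gcost_kept F e _ _ h1' h2', if_neg h3] at h5
            split_ifs with h6
            · exact le_rfl
            · rw [if_neg h6] at h5
              omega

/-- `tau` as the minimum of a sum of costs of vertices and edges. -/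
theorem tau_states (F : Finset Ed) (hv : ∀ e ∈ F, Valid e) (D : Finset ℕ) :
    IsLeast {n | ∃ σ : ℕ → St, (∀ v, Adm F (σ v)) ∧
      (∑ v ∈ vs F, wcost F D v (σ v)) + (∑ e ∈ F, gcost F e (σ (px e)) (σ (py e))) = n}
      (tau F D) := by
  have _ := hv
  constructor
  · obtain ⟨X, C, hcfg, hcost⟩ := exists_tau F D
    obtain ⟨lev, par, h1, h2, h3⟩ := exists_lev C.card C rfl hcfg.forest
    set σ : ℕ → St := fun v => if v ∈ X then none else some (lev v, par v) with hσ
    have hs1 : ∀ v, v ∈ X → σ v = none := by
      intro v h
      simp only [hσ]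
      rw [if_pos h]
    have hs2 : ∀ v, v ∉ X → σ v = some (lev v, par v) := by
      intro v h
      simp only [hσ]
      rw [if_neg h]
    have hne : ∀ e ∉ C, ∀ v, par v ≠ some e := by
      intro e he v hv'
      rcases h2 v with h | ⟨g, hg, h⟩
      · rw [h] at hv'
        exact absurd hv' (by simp)
      · rw [h] at hv'
        rw [Option.some_injective _ hv'] at hg
        exact he hg
    refine ⟨σ, ?_, le_antisymm ?_ (tau_le_states F D σ)⟩
    · intro v
      by_cases h : v ∈ X
      · exact Or.inl (hs1 v h)
      · right
        refine ⟨lev v, par v, hs2 v h, (h1 v).trans (Finset.card_le_card hcfg.CH), ?_⟩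
        rcases h2 v with h | ⟨g, hg, h⟩
        · exact Or.inl h
        · exact Or.inr ⟨g, hcfg.CH hg, h⟩
    · rw [← hcost]
      unfold cost
      apply Nat.add_le_add
      · have h4 : ∑ v ∈ vs F, wcost F D v (σ v) ≤
            ((vs F).filter (fun v => v ∈ X \ D)).card := by
          rw [Finset.card_filter]
          apply Finset.sum_le_sum
          intro v _
          unfold wcost
          by_cases h5 : v ∈ D
          · rw [if_pos h5, if_pos (hs1 v (hcfg.DX h5))]
            exact Nat.zero_le _
          · by_cases h6 : v ∈ X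
            · simp [h5, h6, hs1 v h6]
            · simp [h5, h6, hs2 v h6]
        refine h4.trans (Finset.card_le_card ?_)
        intro v hv'
        exact (Finset.mem_filter.mp hv').2
      · apply Finset.sum_le_sum
        intro e he
        unfold ecost
        by_cases h5 : px e ∈ X
        · by_cases h6 : py e ∈ X
          · rw [if_pos h5, if_pos h6, hs1 _ h5, hs1 _ h6, gcost_nn]
          · rw [if_pos h5, if_neg h6, hs1 _ h5, hs2 _ h6, gcost_ns _ _ _ (by simp)]
        · by_cases h6 : py e ∈ X
          · rw [if_neg h5, if_pos h6, hs2 _ h5, hs1 _ h6, gcost_sn _ _ _ (by simp)]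
          · rw [if_neg h5, if_neg h6, hs2 _ h5, hs2 _ h6,
              gcost_kept _ _ _ _ (by simp) (by simp)]
            by_cases h7 : e ∈ C
            · rw [if_pos h7, if_pos]
              exact h3 e h7
            · rw [if_neg h7, if_neg, if_pos]
              · exact ⟨hne e h7 _, hne e h7 _⟩
              · rintro (h8 | h8)
                · exact hne e h7 _ h8.1
                · exact hne e h7 _ h8.1
  · rintro k ⟨σ, _, rfl⟩
    exact tau_le_states F D σ

end Pool.Agent.TH645.FV
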